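import Pool.Agent.H18.HX.Targets

/-!
# Board `hx_modules`, row CHH: a modification of the map away from the hypersurface
-/

set_option autoImplicit false

open MvPolynomial
open Pool.Agent.H12.ZD (pmap v O Res DenseOrbit NoInv)
open Pool.Agent.H18.HIT Pool.Agent.H18.HX

namespace Pool.Agent.H33.HX

section

variable {N : ℕ} {k : Type}

theorem chh_der [CommRing k] (P : Po (N + 1) k) :
    finSuccEquiv k N (pderiv 0 P) = Polynomial.derivative (finSuccEquiv k N P) := by
  induction P using MvPolynomial.induction_on with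
  | C a => simp [finSuccEquiv_apply]
  | add p q hp hq => rw [map_add, map_add, map_add, Polynomial.derivative_add, hp, hq]
  | mul_X p i hp =>
    rw [pderiv_mul, map_add, map_mul, map_mul, hp, map_mul, Polynomial.derivative_mul]
    refine Fin.cases ?_ (fun j => ?_) i
    · rw [finSuccEquiv_X_zero, pderiv_X_self]
      simp
    · rw [finSuccEquiv_X_succ, pderiv_X_of_ne (Fin.succ_ne_zero j)]
      simp

/-- Taylor expansion in the variable `0` -/
theorem chh_tay [CommRing k] (F : Tup (N + 1) k) (t : Po (N + 1) k) (q : Po (N + 1) k) :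
    ∃ R : Po (N + 1) k, aeval (fun i => F i + if i = 0 then t else 0) q =
      aeval F q + t * aeval F (pderiv 0 q) + t ^ 2 * R := by
  induction q using MvPolynomial.induction_on with
  | C a => exact ⟨0, by simp⟩
  | add p q hp hq =>
    obtain ⟨R, hR⟩ := hp
    obtain ⟨S, hS⟩ := hq
    refine ⟨R + S, ?_⟩
    rw [map_add, hR, hS, map_add, map_add, map_add]
    ring
  | mul_X p i hp =>
    obtain ⟨R, hR⟩ := hp
    by_cases hi : i = 0
    · subst hi
      refine ⟨R * F 0 + aeval F (pderiv 0 p) + t * R, ?_⟩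
      rw [map_mul, hR, map_mul, pderiv_mul, pderiv_X_self, map_add, map_mul, aeval_X, aeval_X,
        if_pos rfl, mul_one]
      ring
    · refine ⟨R * F i, ?_⟩
      rw [map_mul, hR, map_mul, pderiv_mul, pderiv_X_of_ne hi, map_add, map_mul, aeval_X, aeval_X,
        if_neg hi, mul_zero, map_zero]
      ring

variable [Field k]

theorem chh_deg {P : Po (N + 1) k} (hirr : Irreducible P) (hmon : Mny P) :
    1 ≤ (finSuccEquiv k N P).natDegree := by
  by_contra h
  have h0 : (finSuccEquiv k N P).natDegree = 0 := by omega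
  have h1 := (Polynomial.Monic.natDegree_eq_zero (p := finSuccEquiv k N P) hmon).1 h0
  have h2 : P = 1 := (finSuccEquiv k N).injective (by rw [h1, map_one])
  exact hirr.not_isUnit (h2 ▸ isUnit_one)

theorem chh_X {P : Po (N + 1) k} (hirr : Irreducible P) (hmon : Mny P) (j : Fin N) :
    ¬ P ∣ X j.succ := by
  rintro ⟨q, hq⟩
  have h1 := congrArg (finSuccEquiv k N) hq
  rw [map_mul, finSuccEquiv_X_succ] at h1
  have h2 := congrArg Polynomial.natDegree h1
  have hq0 : finSuccEquiv k N q ≠ 0 := by
    intro h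
    rw [h, mul_zero, Polynomial.C_eq_zero] at h1
    exact X_ne_zero j h1
  rw [Polynomial.natDegree_C, Polynomial.natDegree_mul hmon.ne_zero hq0] at h2
  have := chh_deg hirr hmon
  omega

theorem chh_pd [CharZero k] {P : Po (N + 1) k} (hirr : Irreducible P) (hmon : Mny P) :
    ¬ P ∣ pderiv 0 P := by
  intro h
  have h1 := map_dvd (finSuccEquiv k N) h
  rw [chh_der] at h1
  have h2 := chh_deg hirr hmon
  have h3 : Polynomial.derivative (finSuccEquiv k N P) ≠ 0 := by
    intro h4
    have := Polynomial.derivative_eq_zero.1 h4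
    omega
  have h4 := Polynomial.natDegree_le_of_dvd h1 h3
  have h5 := Polynomial.natDegree_derivative_lt (p := finSuccEquiv k N P) (by omega)
  omega

end

theorem pf_CHH : T_CHH := by
  intro N r d k _ _ P F hN hP hrd hF hS
  have hprime : Prime P := hP.irr.prime
  obtain ⟨W0, hW0⟩ : P ∣ aeval F P :=
    Ideal.mem_span_singleton.1 (hS.inv P (Ideal.mem_span_singleton_self P))
  by_cases h0 : P ∣ W0
  swap
  · exact ⟨F, W0, hF, fun i => by rw [sub_self]; exact dvd_zero _, hW0, h0⟩
  obtain ⟨n, rfl⟩ : ∃ n, N = n + 1 := ⟨N - 1, by omega⟩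
  obtain ⟨h0', hh⟩ : ∃ h : Po (n + 1 + 1) k, h = X (Fin.succ 0) ^ (d - r) := ⟨_, rfl⟩
  obtain ⟨R, hR⟩ := chh_tay F (P * h0') P
  have hhh : h0'.IsHomogeneous (d - r) := by
    rw [hh]
    have := (isHomogeneous_X k (Fin.succ (0 : Fin (n + 1)))).pow (d - r)
    rwa [one_mul] at this
  refine ⟨fun i => F i + if i = 0 then P * h0' else 0,
    W0 + h0' * aeval F (pderiv 0 P) + P * h0' ^ 2 * R, fun i => ?_, fun i => ?_, ?_, ?_⟩
  · refine (hF i).add ?_
    split_ifs
    · have := hP.hom.mul hhh
      rwa [Nat.add_sub_cancel' hrd] at this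
    · exact isHomogeneous_zero _ _ _
  · rw [add_sub_cancel_left]
    split_ifs
    · exact dvd_mul_right _ _
    · exact dvd_zero _
  · rw [hR, hW0]
    ring
  · intro h1
    have h2 : P ∣ h0' * aeval F (pderiv 0 P) := by
      have h3 : h0' * aeval F (pderiv 0 P) =
          (W0 + h0' * aeval F (pderiv 0 P) + P * h0' ^ 2 * R) - W0 - P * (h0' ^ 2 * R) := by ring
      rw [h3]
      exact dvd_sub (dvd_sub h1 h0) (dvd_mul_right _ _)
    rcases hprime.dvd_or_dvd h2 with h3 | h3
    · rw [hh] at h3
      exact chh_X hP.irr hP.mon _ (hprime.dvd_of_dvd_pow h3)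
    · have h4 := hS.inj (pderiv 0 P) (Ideal.mem_span_singleton.2 h3)
      exact chh_pd hP.irr hP.mon (Ideal.mem_span_singleton.1 h4)

end Pool.Agent.H33.HX
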