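import Pool.Agent.H18.HX.Targets

/-!
# Board `hx_modules`, row HUP: the Hilbert function of a proper subset from above
-/

set_option autoImplicit false

open MvPolynomial
open Pool.Agent.H12.ZD (pmap v O Res DenseOrbit NoInv)
open Pool.Agent.H18.HIT Pool.Agent.H18.HX

namespace Pool.Agent.H33.HX

section hup

variable {L N : ℕ} {k : Type} [Field k] (I : Ideal (Po L k)) (l : Fin N → Po L k)

/-- combinations of `x ^ m v(l)` with `|m| + deg v ≤ t`, and elements of `I` -/
noncomputable def hupV (D t : ℕ) : Submodule k (Po L k) :=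
  Submodule.span k ({u | u ∈ I} ∪ {u | ∃ (m : Fin L → Fin D) (v : Po N k),
    (∑ i, (m i : ℕ)) + v.totalDegree ≤ t ∧ u = (∏ i, X i ^ (m i : ℕ)) * aeval l v})

theorem hupV_mul (D s r : ℕ) (q : Po N k) (hq : q.totalDegree ≤ r) (u : Po L k)
    (hu : u ∈ hupV I l D s) : u * aeval l q ∈ hupV I l D (s + r) := by
  unfold hupV at hu
  induction hu using Submodule.span_induction with
  | mem x hx =>
    rcases hx with hx | ⟨m, v, hm, rfl⟩
    · exact Submodule.subset_span (Or.inl (I.mul_mem_right _ hx))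
    · refine Submodule.subset_span (Or.inr ⟨m, v * q, ?_, ?_⟩)
      · have := totalDegree_mul v q
        omega
      · rw [map_mul, mul_assoc]
  | zero => rw [zero_mul]; exact Submodule.zero_mem _
  | add x y _ _ hx hy => rw [add_mul]; exact Submodule.add_mem _ hx hy
  | smul a x _ hx => rw [smul_mul_assoc]; exact Submodule.smul_mem _ a hx

theorem hupV_mono (D : ℕ) {s t : ℕ} (h : s ≤ t) : hupV I l D s ≤ hupV I l D t := by
  unfold hupV
  refine Submodule.span_mono (Set.union_subset_union_right _ ?_)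
  rintro u ⟨m, v, hm, rfl⟩
  exact ⟨m, v, hm.trans h, rfl⟩

theorem hup_comp (hl : ∀ i, (l i).IsHomogeneous 1) (n j : ℕ) (hj : j ≤ n) (q : Po N k)
    (i : Fin L) : homogeneousComponent n (aeval l q * X i ^ j : Po L k) =
      aeval l (homogeneousComponent (n - j) q) * X i ^ j := by
  have h1 : ∀ e : ℕ, (aeval l (homogeneousComponent e q) * X i ^ j : Po L k).IsHomogeneous
      (e + j) := by
    intro e
    have h2 := (homogeneousComponent_isHomogeneous e q).aeval l hl
    have h3 := (isHomogeneous_X k i).pow j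
    rw [one_mul] at h2 h3
    exact h2.mul h3
  conv_lhs => rw [← sum_homogeneousComponent q, map_sum, Finset.sum_mul, map_sum]
  have h4 : ∀ e, homogeneousComponent n (aeval l (homogeneousComponent e q) * X i ^ j : Po L k) =
      if n = e + j then aeval l (homogeneousComponent e q) * X i ^ j else 0 := fun e =>
    homogeneousComponent_of_mem (h1 e)
  simp only [h4]
  by_cases h5 : n - j ∈ Finset.range (q.totalDegree + 1)
  · rw [Finset.sum_eq_single_of_mem _ h5, if_pos (by omega)]
    intro e _ he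
    rw [if_neg (by omega)]
  · rw [Finset.sum_eq_zero, homogeneousComponent_eq_zero, map_zero, zero_mul]
    · rw [Finset.mem_range] at h5
      omega
    · intro e he
      rw [if_neg]
      intro h6
      apply h5
      rwa [show n - j = e by omega]

/-- the homogeneous equation of `X i` -/
theorem hup_rel (hl : ∀ i, (l i).IsHomogeneous 1)
    (hI : ∀ c ∈ I, ∀ t, homogeneousComponent t c ∈ I) (i : Fin L)
    (h : ∃ Q : Polynomial (Po N k), Q.Monic ∧ evg l (X i) Q ∈ I) :
    ∃ (n : ℕ) (q : ℕ → Po N k), (∀ j, (q j).totalDegree ≤ n - j) ∧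
      X i ^ n + ∑ j ∈ Finset.range n, aeval l (q j) * X i ^ j ∈ I := by
  obtain ⟨Q, hQ, hQI⟩ := h
  refine ⟨Q.natDegree, fun j => homogeneousComponent (Q.natDegree - j) (Q.coeff j), fun j => ?_, ?_⟩
  · exact (homogeneousComponent_isHomogeneous _ _).totalDegree_le
  · have h1 := hI _ hQI Q.natDegree
    rw [evg, Polynomial.eval₂_eq_sum_range, map_sum] at h1
    have h2 : ∀ j ∈ Finset.range (Q.natDegree + 1),
        homogeneousComponent Q.natDegree ((aeval l : Po N k →ₐ[k] Po L k).toRingHom (Q.coeff j) *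
          X i ^ j) = aeval l (homogeneousComponent (Q.natDegree - j) (Q.coeff j)) * X i ^ j := by
      intro j hj
      exact hup_comp l hl _ _ (by rw [Finset.mem_range] at hj; omega) _ i
    rw [Finset.sum_congr rfl h2, Finset.sum_range_succ, Nat.sub_self, hQ.coeff_natDegree,
      homogeneousComponent_zero, coeff_one, if_pos rfl, C_1, map_one, one_mul, add_comm] at h1
    exact h1

theorem hup_mon (D : ℕ) (hD : ∀ i : Fin L, ∃ (n : ℕ) (q : ℕ → Po N k), n ≤ D ∧
    (∀ j, (q j).totalDegree ≤ n - j) ∧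
      X i ^ n + ∑ j ∈ Finset.range n, aeval l (q j) * X i ^ j ∈ I) (t : ℕ) :
    ∀ a : Fin L → ℕ, ∑ i, a i = t → ∏ i, X i ^ a i ∈ hupV I l D t := by
  classical
  induction t using Nat.strong_induction_on with
  | h t ih =>
    intro a ha
    by_cases hall : ∀ i, a i < D
    · refine Submodule.subset_span (Or.inr ⟨fun i => ⟨a i, hall i⟩, 1, ?_, ?_⟩)
      · rw [totalDegree_one, add_zero]
        exact ha.le
      · rw [map_one, mul_one]
    · push Not at hall
      obtain ⟨i, hi⟩ := hall
      obtain ⟨n, q, hn, hq, hrel⟩ := hD i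
      have hni : n ≤ a i := hn.trans hi
      -- the other factors
      obtain ⟨M, hM⟩ : ∃ M : ℕ → Po L k, ∀ j, M j = ∏ i', X i' ^ (Function.update a i
        (a i - n + j)) i' := ⟨_, fun j => rfl⟩
      have hMj : ∀ j, M j = X i ^ j * M 0 := by
        intro j
        rw [hM, hM, ← Finset.mul_prod_erase _ _ (Finset.mem_univ i),
          ← Finset.mul_prod_erase (a := i) Finset.univ (fun i' => (X i' : Po L k) ^
            (Function.update a i (a i - n + 0)) i') (Finset.mem_univ i), Function.update_self,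
          Function.update_self, ← mul_assoc, ← pow_add, add_zero, add_comm j]
        congr 1
        refine Finset.prod_congr rfl fun i' hi' => ?_
        rw [Function.update_of_ne (Finset.ne_of_mem_erase hi'),
          Function.update_of_ne (Finset.ne_of_mem_erase hi')]
      have hsum : ∀ j, j ≤ n → ∑ i', (Function.update a i (a i - n + j)) i' = t - n + j := by
        intro j hj
        have h1 := Finset.add_sum_erase (a := i) Finset.univ a (Finset.mem_univ i)
        have h2 := Finset.add_sum_erase (a := i) Finset.univ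
          (Function.update a i (a i - n + j)) (Finset.mem_univ i)
        rw [Function.update_self] at h2
        have h3 : ∑ x ∈ Finset.univ.erase i, (Function.update a i (a i - n + j)) x =
            ∑ x ∈ Finset.univ.erase i, a x :=
          Finset.sum_congr rfl fun i' hi' => Function.update_of_ne (Finset.ne_of_mem_erase hi') _ _
        rw [h3] at h2
        omega
      have hnt : n ≤ t := by
        have := Finset.single_le_sum (f := a) (fun _ _ => Nat.zero_le _) (Finset.mem_univ i)
        omega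
      have hMn : ∏ i', X i' ^ a i' = M n := by
        rw [hM, Nat.sub_add_cancel hni, Function.update_eq_self]
      have h4 : M n = (X i ^ n + ∑ j ∈ Finset.range n, aeval l (q j) * X i ^ j) * M 0 -
          ∑ j ∈ Finset.range n, M j * aeval l (q j) := by
        rw [add_mul, Finset.sum_mul, hMj n, add_sub_assoc, ← Finset.sum_sub_distrib,
          Finset.sum_eq_zero, add_zero]
        intro j _
        rw [hMj j]
        ring
      rw [hMn, h4]
      refine Submodule.sub_mem _ (Submodule.subset_span (Or.inl (I.mul_mem_right _ hrel)))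
        (Submodule.sum_mem _ fun j hj => ?_)
      rw [Finset.mem_range] at hj
      have h5 : M j ∈ hupV I l D (t - n + j) := by
        rw [hM]
        exact ih (t - n + j) (by omega) _ (hsum j hj.le)
      have h6 := hupV_mul I l D (t - n + j) (n - j) (q j) (hq j) (M j) h5
      rwa [show t - n + j + (n - j) = t by omega] at h6

theorem hup_le (D : ℕ) (hD : ∀ i : Fin L, ∃ (n : ℕ) (q : ℕ → Po N k), n ≤ D ∧
    (∀ j, (q j).totalDegree ≤ n - j) ∧
      X i ^ n + ∑ j ∈ Finset.range n, aeval l (q j) * X i ^ j ∈ I) (t : ℕ) :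
    restrictTotalDegree (Fin L) k t ≤ hupV I l D t := by
  intro u hu
  rw [mem_restrictTotalDegree] at hu
  rw [u.as_sum]
  refine Submodule.sum_mem _ fun a ha => ?_
  rw [monomial_eq, ← smul_eq_C_mul]
  refine Submodule.smul_mem _ _ ?_
  have h1 : (a.prod fun n e => X n ^ e : Po L k) = ∏ i, X i ^ a i :=
    Finsupp.prod_fintype _ _ fun i => pow_zero _
  rw [h1]
  have h2 : ∑ i, a i ≤ t := by
    have h3 := le_totalDegree ha
    rw [Finsupp.sum_fintype _ _ fun _ => rfl] at h3
    exact h3.trans hu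
  exact hupV_mono I l D h2 (hup_mon I l D hD _ a rfl)

/-- a polynomial in `l` which is divisible by `c` modulo `I` -/
theorem hup_dvd [I.IsPrime]
    (hint : ∀ i, ∃ Q : Polynomial (Po N k), Q.Monic ∧ evg l (X i) Q ∈ I) (c : Po L k)
    (hc : c ∉ I) : ∃ c' : Po N k, c' ≠ 0 ∧ aeval l c' ∈ I ⊔ Ideal.span {c} := by
  obtain ⟨φ, hφ⟩ : ∃ φ : Po N k →+* Po L k ⧸ I, ∀ q, φ q = Ideal.Quotient.mk I (aeval l q) :=
    ⟨(Ideal.Quotient.mk I).comp (aeval l : Po N k →ₐ[k] Po L k).toRingHom, fun q => rfl⟩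
  have hφr : φ = (Ideal.Quotient.mk I).comp (aeval l : Po N k →ₐ[k] Po L k).toRingHom :=
    RingHom.ext hφ
  let _ : Algebra (Po N k) (Po L k ⧸ I) := φ.toAlgebra
  have halg : algebraMap (Po N k) (Po L k ⧸ I) = φ := rfl
  have h1 : ∀ u : Po L k, IsIntegral (Po N k) (Ideal.Quotient.mk I u) := by
    intro u
    induction u using MvPolynomial.induction_on with
    | C a =>
      have h2 : Ideal.Quotient.mk I (C a) = algebraMap (Po N k) (Po L k ⧸ I) (C a) := by
        rw [halg, hφ]
        simp [algebraMap_eq]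
      rw [h2]
      exact isIntegral_algebraMap
    | add p q hp hq => rw [map_add]; exact hp.add hq
    | mul_X p i hp =>
      rw [map_mul]
      refine hp.mul ?_
      obtain ⟨Q, hQ, hQI⟩ := hint i
      refine ⟨Q, hQ, ?_⟩
      rw [halg, hφr, ← Polynomial.hom_eval₂]
      exact Ideal.Quotient.eq_zero_iff_mem.2 hQI
  have h3 : Ideal.Quotient.mk I c ≠ 0 := fun h => hc (Ideal.Quotient.eq_zero_iff_mem.1 h)
  obtain ⟨r, hr, y, hy⟩ := ((h1 c).isAlgebraic).exists_nonzero_dvd
    (mem_nonZeroDivisors_of_ne_zero h3)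
  obtain ⟨y, rfl⟩ := Ideal.Quotient.mk_surjective y
  refine ⟨r, hr, ?_⟩
  rw [halg, hφ, ← map_mul, Ideal.Quotient.eq] at hy
  have h4 : aeval l r = (aeval l r - c * y) + c * y := by ring
  rw [h4]
  exact Ideal.add_mem _ (Ideal.mem_sup_left hy)
    (Ideal.mem_sup_right (Ideal.mem_span_singleton.2 (dvd_mul_right _ _)))

end hup

theorem pf_HUP (hRTD : T_RTD) (hHF1 : T_HF1) : T_HUP := by
  intro L N k _ I _ l c hl hI _ hint hc
  obtain ⟨c', hc', hc'I⟩ := hup_dvd I l hint c hc
  obtain ⟨B0, hB0⟩ := hHF1 N k (Ideal.span {c'}) c' (Ideal.mem_span_singleton_self c') hc'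
  have hrel := fun i => hup_rel I l hl hI i (hint i)
  choose n q hq hr using hrel
  obtain ⟨D, hD⟩ : ∃ D : ℕ, ∀ i, n i ≤ D :=
    ⟨Finset.univ.sup n, fun i => Finset.le_sup (Finset.mem_univ i)⟩
  refine ⟨D ^ L * B0, fun t => ?_⟩
  obtain ⟨J, hJ⟩ : ∃ J, J = I ⊔ Ideal.span {c} := ⟨_, rfl⟩
  rw [← hJ] at hc'I ⊢
  have hfin := (hRTD N k t).1
  obtain ⟨W, hW⟩ : ∃ W, W = Submodule.map (Ideal.Quotient.mkₐ k (Ideal.span {c'})).toLinearMap
    (restrictTotalDegree (Fin N) k t) := ⟨_, rfl⟩
  have hWfin : Module.Finite k W := by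
    rw [hW]
    infer_instance
  have hWf : Module.finrank k W = Hf (Ideal.span {c'}) t := by
    rw [hW]
    rfl
  -- the map
  obtain ⟨ψ, hψ⟩ : ∃ ψ : (Po N k ⧸ Ideal.span {c'}) →ₐ[k] (Po L k ⧸ J),
      ∀ v, ψ (Ideal.Quotient.mk _ v) = Ideal.Quotient.mk J (aeval l v) := by
    refine ⟨Ideal.Quotient.liftₐ (Ideal.span {c'}) ((Ideal.Quotient.mkₐ k J).comp (aeval l)) ?_,
      fun v => rfl⟩
    intro a ha
    obtain ⟨b, rfl⟩ := Ideal.mem_span_singleton.1 ha
    refine Ideal.Quotient.eq_zero_iff_mem.2 ?_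
    show aeval l (c' * b) ∈ J
    rw [map_mul]
    exact J.mul_mem_right _ hc'I
  obtain ⟨Λ, hΛ⟩ : ∃ Λ : ((Fin L → Fin D) → W) →ₗ[k] (Po L k ⧸ J), ∀ w, Λ w =
      ∑ m : Fin L → Fin D, Ideal.Quotient.mk J (∏ i, X i ^ (m i : ℕ)) * ψ (w m : _) := by
    refine ⟨∑ m : Fin L → Fin D, (LinearMap.mulLeft k
      (Ideal.Quotient.mk J (∏ i, X i ^ (m i : ℕ)))) ∘ₗ ψ.toLinearMap ∘ₗ W.subtype ∘ₗ
        LinearMap.proj m, fun w => ?_⟩
    rw [LinearMap.sum_apply]
    rfl
  have hle : Submodule.map (Ideal.Quotient.mkₐ k J).toLinearMap (restrictTotalDegree (Fin L) k t) ≤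
      LinearMap.range Λ := by
    rw [Submodule.map_le_iff_le_comap]
    refine (hup_le I l D (fun i => ⟨n i, q i, hD i, hq i, hr i⟩) t).trans ?_
    unfold hupV
    rw [Submodule.span_le]
    rintro u (hu | ⟨m, v, hm, rfl⟩)
    · refine ⟨0, ?_⟩
      rw [map_zero]
      symm
      refine Ideal.Quotient.eq_zero_iff_mem.2 ?_
      rw [hJ]
      exact Ideal.mem_sup_left hu
    · have hvW : Ideal.Quotient.mk (Ideal.span {c'}) v ∈ W := by
        rw [hW]
        refine ⟨v, ?_, rfl⟩
        exact (mem_restrictTotalDegree _ _ _).2 (by omega)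
      classical
      refine ⟨Pi.single m ⟨_, hvW⟩, ?_⟩
      rw [hΛ, Finset.sum_eq_single_of_mem m (Finset.mem_univ _)]
      · rw [Pi.single_eq_same, hψ, ← map_mul]
        rfl
      · intro m' _ hm'
        rw [Pi.single_eq_of_ne hm']
        simp
  have h1 : Hf J t ≤ Module.finrank k (LinearMap.range Λ) := Submodule.finrank_mono hle
  have h2 : Module.finrank k (LinearMap.range Λ) ≤ Module.finrank k ((Fin L → Fin D) → W) :=
    LinearMap.finrank_range_le Λ
  rw [Module.finrank_pi_fintype, Finset.sum_const, Finset.card_univ, Fintype.card_fun,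
    Fintype.card_fin, Fintype.card_fin, smul_eq_mul, hWf] at h2
  calc Hf J t ≤ D ^ L * Hf (Ideal.span {c'}) t := h1.trans h2
    _ ≤ D ^ L * (B0 * (t + 1) ^ (N - 1)) := Nat.mul_le_mul_left _ (hB0 t)
    _ = D ^ L * B0 * (t + 1) ^ (N - 1) := (mul_assoc _ _ _).symm

end Pool.Agent.H33.HX
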