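import Pool.Agent.H18.HX.Targets
import Pool.Agent.H69.HIT.CVI

/-!
# Board `hx_modules`, row CVD: the number of preimages is the degree
-/

set_option autoImplicit false

open MvPolynomial
open Pool.Agent.H12.ZD (pmap v O Res DenseOrbit NoInv)
open Pool.Agent.H18.HIT Pool.Agent.H18.HX

namespace Pool.Agent.H33.HX

section cvd

variable {B : Type} [CommRing B] (φ : B →+* B) (t : B) {n : ℕ}

/-- the value at `t` of a sum of powers -/
theorem cvd_ev (c : Fin (n + 1) → B) :
    (∑ j : Fin (n + 1), Polynomial.C (c j) * Polynomial.X ^ (j : ℕ)).eval₂ φ t =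
      ∑ j : Fin (n + 1), t ^ (j : ℕ) * φ (c j) := by
  rw [Polynomial.eval₂_finsetSum]
  refine Finset.sum_congr rfl fun j _ => ?_
  rw [Polynomial.eval₂_mul, Polynomial.eval₂_C, Polynomial.eval₂_X_pow, mul_comm]

/-- nonzero elements divide elements of the base -/
theorem cvd_det [IsDomain B] (h2 : ∀ u : B, ∃ (s : B) (c : Fin (n + 1) → B), s ≠ 0 ∧
      φ s * u = ∑ j : Fin (n + 1), t ^ (j : ℕ) * φ (c j))
    (h3 : ∀ c : Fin (n + 1) → B, ∑ j : Fin (n + 1), t ^ (j : ℕ) * φ (c j) = 0 → ∀ j, c j = 0)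
    (δ : B) (hδ : δ ≠ 0) : ∃ (V : Polynomial B) (ρ : B), ρ ≠ 0 ∧ V.eval₂ φ t * δ = φ ρ := by
  choose s M hs hM using fun j : Fin (n + 1) => h2 (δ * t ^ (j : ℕ))
  have key : ∀ w : Fin (n + 1) → B, δ * ∑ j : Fin (n + 1), t ^ (j : ℕ) * φ (w j * s j) =
      ∑ i : Fin (n + 1), t ^ (i : ℕ) * φ (∑ j, w j * M j i) := by
    intro w
    rw [Finset.mul_sum]
    have e1 : ∀ j : Fin (n + 1), δ * (t ^ (j : ℕ) * φ (w j * s j)) =
        ∑ i : Fin (n + 1), t ^ (i : ℕ) * φ (w j * M j i) := by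
      intro j
      calc δ * (t ^ (j : ℕ) * φ (w j * s j)) = φ (w j) * (φ (s j) * (δ * t ^ (j : ℕ))) := by
            rw [map_mul]; ring
        _ = φ (w j) * ∑ i : Fin (n + 1), t ^ (i : ℕ) * φ (M j i) := by rw [hM]
        _ = _ := by
            rw [Finset.mul_sum]
            exact Finset.sum_congr rfl fun i _ => by rw [map_mul]; ring
    rw [Finset.sum_congr rfl fun j _ => e1 j, Finset.sum_comm]
    refine Finset.sum_congr rfl fun i _ => ?_
    rw [map_sum, Finset.mul_sum]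
  have hdet : (Matrix.of M).det ≠ 0 := by
    intro h0
    obtain ⟨w, hw, hwM⟩ := Matrix.exists_vecMul_eq_zero_iff.2 h0
    have e2 : ∀ i, ∑ j, w j * M j i = 0 := fun i => congrFun hwM i
    have e3 := key w
    simp only [e2, map_zero, mul_zero, Finset.sum_const_zero] at e3
    have e4 := (mul_eq_zero.1 e3).resolve_left hδ
    have e5 := h3 _ e4
    exact hw (funext fun j => (mul_eq_zero.1 (e5 j)).resolve_right (hs j))
  obtain ⟨w, hw⟩ : ∃ w : Fin (n + 1) → B, ∀ j, w j = (Matrix.of M).adjugate 0 j :=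
    ⟨_, fun _ => rfl⟩
  refine ⟨∑ j : Fin (n + 1), Polynomial.C (w j * s j) * Polynomial.X ^ (j : ℕ),
    (Matrix.of M).det, hdet, ?_⟩
  rw [cvd_ev, mul_comm, key w]
  have e6 : ∀ i, ∑ j, w j * M j i = if i = 0 then (Matrix.of M).det else 0 := by
    intro i
    have e7 := congrFun (congrFun (Matrix.adjugate_mul (Matrix.of M)) 0) i
    rw [Matrix.mul_apply, Matrix.smul_apply, Matrix.one_apply] at e7
    simp only [hw]
    rw [show (∑ j, (Matrix.of M).adjugate 0 j * M j i) =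
      ∑ j, (Matrix.of M).adjugate 0 j * (Matrix.of M) j i from rfl, e7]
    by_cases hi : i = 0
    · rw [if_pos hi, if_pos hi.symm, smul_eq_mul, mul_one]
    · rw [if_neg hi, if_neg fun h => hi h.symm, smul_zero]
  rw [Finset.sum_eq_single_of_mem 0 (Finset.mem_univ _), e6, if_pos rfl]
  · simp
  · intro i _ hi
    rw [e6, if_neg hi, map_zero, mul_zero]

/-- pseudo-division by `Ψ` -/
theorem cvd_div {k : Type} [Field k] (χ : B →+* k) (τ : k) (Ψ : Polynomial B)
    (hn : Ψ.natDegree = n + 1) (hs : χ Ψ.leadingCoeff ≠ 0) (hΨ : Ψ.eval₂ φ t = 0)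
    (hτ : Ψ.eval₂ χ τ = 0)
    (h3 : ∀ c : Fin (n + 1) → B, ∑ j : Fin (n + 1), t ^ (j : ℕ) * φ (c j) = 0 → ∀ j, c j = 0)
    (m : ℕ) : ∀ p : Polynomial B, p.natDegree < m → p.eval₂ φ t = 0 → p.eval₂ χ τ = 0 := by
  induction m with
  | zero => intro p hp; omega
  | succ m ih =>
    intro p hp h0
    by_cases hpn : p.natDegree < n + 1
    · rw [Polynomial.eval₂_eq_sum_range' φ hpn, Finset.sum_range] at h0
      have h4 := h3 (fun j => p.coeff j) (by
        rw [← h0]
        exact Finset.sum_congr rfl fun j _ => mul_comm _ _)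
      rw [Polynomial.eval₂_eq_sum_range' χ hpn, Finset.sum_range]
      refine Finset.sum_eq_zero fun j _ => ?_
      have h5 : p.coeff j = 0 := h4 j
      rw [h5, map_zero, zero_mul]
    · have hp0 : p ≠ 0 := by
        rintro rfl
        simp at hpn
      obtain ⟨q, hq⟩ : ∃ q : Polynomial B, q = Polynomial.C p.leadingCoeff *
        Polynomial.X ^ (p.natDegree - (n + 1)) * Ψ := ⟨_, rfl⟩
      obtain ⟨p', hp'⟩ : ∃ p' : Polynomial B, p' = Polynomial.C Ψ.leadingCoeff * p - q := ⟨_, rfl⟩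
      have hlt : p'.natDegree < p.natDegree := by
        have hpos : 0 < p.natDegree := by omega
        have hle : p'.natDegree ≤ p.natDegree := by
          rw [hp']
          refine (Polynomial.natDegree_sub_le _ _).trans (max_le ?_ ?_)
          · exact Polynomial.natDegree_C_mul_le _ _
          · rw [hq]
            refine Polynomial.natDegree_mul_le.trans ?_
            have h6 := Polynomial.natDegree_C_mul_X_pow_le p.leadingCoeff
              (p.natDegree - (n + 1))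
            omega
        refine lt_of_le_of_ne hle fun heq => ?_
        have h7 : p'.coeff p.natDegree = 0 := by
          rw [hp', Polynomial.coeff_sub, Polynomial.coeff_C_mul, hq, mul_assoc,
            Polynomial.coeff_C_mul]
          have h8 := Polynomial.coeff_X_pow_mul Ψ (p.natDegree - (n + 1)) (n + 1)
          rw [show n + 1 + (p.natDegree - (n + 1)) = p.natDegree by omega] at h8
          rw [h8, ← hn, Polynomial.coeff_natDegree, Polynomial.coeff_natDegree, mul_comm, sub_self]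
        have h9 : p' ≠ 0 := by
          rintro h
          rw [h, Polynomial.natDegree_zero] at heq
          omega
        rw [← heq] at h7
        exact h9 (Polynomial.leadingCoeff_eq_zero.1 h7)
      have h10 : p'.eval₂ φ t = 0 := by
        rw [hp', hq, Polynomial.eval₂_sub, Polynomial.eval₂_mul, Polynomial.eval₂_mul, h0, hΨ,
          mul_zero, mul_zero, sub_self]
      have h11 := ih p' (by omega) h10
      rw [hp', hq, Polynomial.eval₂_sub, Polynomial.eval₂_mul, Polynomial.eval₂_mul, hτ,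
        mul_zero, sub_zero, Polynomial.eval₂_C] at h11
      exact (mul_eq_zero.1 h11).resolve_left hs

end cvd

theorem pf_CVD : T_CVD := by
  intro L e k _ _ _ I _ f θ hS he h2 h3
  classical
  obtain ⟨n, rfl⟩ : ∃ n, e = n + 1 := ⟨e - 1, by omega⟩
  have hne : ∀ {q : Po L k}, q ∉ I → Ideal.Quotient.mk I q ≠ 0 := fun {q} hq h =>
    hq (Ideal.Quotient.eq_zero_iff_mem.1 h)
  obtain ⟨φ, hφ⟩ : ∃ φ : (Po L k ⧸ I) →+* (Po L k ⧸ I),
      ∀ q, φ (Ideal.Quotient.mk I q) = Ideal.Quotient.mk I (aeval f q) :=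
    ⟨Ideal.quotientMap I (aeval f : Po L k →ₐ[k] Po L k).toRingHom (fun q hq => hS.inv q hq),
      fun q => rfl⟩
  obtain ⟨t, ht⟩ : ∃ t, t = Ideal.Quotient.mk I θ := ⟨_, rfl⟩
  have hB2 : ∀ u : Po L k ⧸ I, ∃ (s : Po L k ⧸ I) (c : Fin (n + 1) → Po L k ⧸ I), s ≠ 0 ∧
      φ s * u = ∑ j : Fin (n + 1), t ^ (j : ℕ) * φ (c j) := by
    intro u
    obtain ⟨u, rfl⟩ := Ideal.Quotient.mk_surjective u
    obtain ⟨s, c, hs, h⟩ := h2 u
    refine ⟨Ideal.Quotient.mk I s, fun j => Ideal.Quotient.mk I (c j), hne hs, ?_⟩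
    have h4 := Ideal.Quotient.eq_zero_iff_mem.2 h
    rw [map_sub, map_mul, map_sum, sub_eq_zero] at h4
    rw [hφ, h4]
    refine Finset.sum_congr rfl fun j _ => ?_
    rw [map_mul, map_pow, hφ, ht]
  have hB3 : ∀ c : Fin (n + 1) → Po L k ⧸ I,
      ∑ j : Fin (n + 1), t ^ (j : ℕ) * φ (c j) = 0 → ∀ j, c j = 0 := by
    intro c hc
    choose c' hc' using fun j => Ideal.Quotient.mk_surjective (c j)
    have h4 := h3 c' (by
      rw [← Ideal.Quotient.eq_zero_iff_mem, ← hc, map_sum]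
      refine Finset.sum_congr rfl fun j _ => ?_
      rw [map_mul, map_pow, ← hφ, ht, hc' j])
    intro j
    rw [← hc' j]
    exact Ideal.Quotient.eq_zero_iff_mem.2 (h4 j)
  have hchar : CharZero (Po L k ⧸ I) :=
    charZero_of_injective_algebraMap (algebraMap k (Po L k ⧸ I)).injective
  -- the coordinates
  choose s c hs hc using fun i : Fin L => hB2 (Ideal.Quotient.mk I (X i))
  obtain ⟨s0, hs0⟩ : ∃ s0, s0 = ∏ i, s i := ⟨_, rfl⟩
  have hs00 : s0 ≠ 0 := by
    rw [hs0]
    exact Finset.prod_ne_zero_iff.2 fun i _ => hs i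
  obtain ⟨R, hR⟩ : ∃ R : Fin L → Polynomial (Po L k ⧸ I),
      ∀ i, (R i).eval₂ φ t = φ s0 * Ideal.Quotient.mk I (X i) := by
    refine ⟨fun i => Polynomial.C (∏ i' ∈ Finset.univ.erase i, s i') *
      ∑ j : Fin (n + 1), Polynomial.C (c i j) * Polynomial.X ^ (j : ℕ), fun i => ?_⟩
    rw [Polynomial.eval₂_mul, Polynomial.eval₂_C, cvd_ev, ← hc i, hs0,
      ← Finset.mul_prod_erase Finset.univ s (Finset.mem_univ i), map_mul]
    ring
  -- the equation of `t`
  obtain ⟨se, a, hse, ha⟩ := hB2 (t ^ (n + 1))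
  obtain ⟨Q, hQ⟩ : ∃ Q : Polynomial (Po L k ⧸ I),
      Q = ∑ j : Fin (n + 1), Polynomial.C (a j) * Polynomial.X ^ (j : ℕ) := ⟨_, rfl⟩
  have hQd : Q.degree < ((n + 1 : ℕ) : WithBot ℕ) := by
    rw [hQ]
    exact Polynomial.degree_sum_fin_lt a
  obtain ⟨Ψ, hΨ⟩ : ∃ Ψ : Polynomial (Po L k ⧸ I),
      Ψ = Polynomial.C se * Polynomial.X ^ (n + 1) - Q := ⟨_, rfl⟩
  have hQd' : Q.degree < (Polynomial.C se * Polynomial.X ^ (n + 1)).degree := by
    rw [Polynomial.degree_C_mul_X_pow _ hse]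
    exact hQd
  have hΨd : Ψ.natDegree = n + 1 := by
    refine Polynomial.natDegree_eq_of_degree_eq_some ?_
    rw [hΨ, Polynomial.degree_sub_eq_left_of_degree_lt hQd', Polynomial.degree_C_mul_X_pow _ hse]
  have hΨl : Ψ.leadingCoeff = se := by
    rw [hΨ, Polynomial.leadingCoeff_sub_of_degree_lt hQd', Polynomial.leadingCoeff_C_mul_X_pow]
  have hΨ0 : Ψ.eval₂ φ t = 0 := by
    rw [hΨ, Polynomial.eval₂_sub, Polynomial.eval₂_mul, Polynomial.eval₂_C, Polynomial.eval₂_X_pow,
      ha, hQ, cvd_ev, sub_self]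
  -- the derivative
  have hδ : Ψ.derivative.eval₂ φ t ≠ 0 := by
    intro h0
    have h4 : Ψ.derivative.natDegree < n + 1 := by
      rw [← hΨd]
      exact Polynomial.natDegree_derivative_lt (by omega)
    rw [Polynomial.eval₂_eq_sum_range' φ h4, Finset.sum_range] at h0
    have h5 := hB3 (fun j => Ψ.derivative.coeff j) (by
      rw [← h0]
      exact Finset.sum_congr rfl fun j _ => mul_comm _ _) (Fin.last n)
    simp only [Fin.val_last, Polynomial.coeff_derivative] at h5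
    rcases mul_eq_zero.1 h5 with h6 | h6
    · rw [← hΨd, Polynomial.coeff_natDegree, hΨl] at h6
      exact hse h6
    · exact Nat.cast_add_one_ne_zero n h6
  obtain ⟨V, ρ, hρ, hV⟩ := cvd_det φ t hB2 hB3 _ hδ
  obtain ⟨c0, hc0⟩ := Ideal.Quotient.mk_surjective (se * s0 * ρ)
  refine ⟨c0, fun h => ?_, fun y hy hyc => ?_⟩
  · rw [Ideal.Quotient.eq_zero_iff_mem.2 h] at hc0
    exact mul_ne_zero (mul_ne_zero hse hs00) hρ hc0.symm
  obtain ⟨χ, hχ⟩ : ∃ χ : (Po L k ⧸ I) →+* k, ∀ q, χ (Ideal.Quotient.mk I q) = eval y q :=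
    ⟨Ideal.Quotient.lift I (eval y) (fun q hq => hy q hq), fun q => rfl⟩
  rw [← hχ, hc0, map_mul, map_mul] at hyc
  have hχe : χ se ≠ 0 := left_ne_zero_of_mul (left_ne_zero_of_mul hyc)
  have hχs : χ s0 ≠ 0 := right_ne_zero_of_mul (left_ne_zero_of_mul hyc)
  have hχρ : χ ρ ≠ 0 := right_ne_zero_of_mul hyc
  have hdiv : ∀ τ, Ψ.eval₂ χ τ = 0 → ∀ p : Polynomial (Po L k ⧸ I), p.eval₂ φ t = 0 →
      p.eval₂ χ τ = 0 := fun τ hτ p hp =>
    cvd_div φ t χ τ Ψ hΨd (by rw [hΨl]; exact hχe) hΨ0 hτ hB3 _ p (Nat.lt_succ_self _) hp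
  -- the points
  obtain ⟨x, hx⟩ : ∃ x : k → Fin L → k, ∀ τ i, χ s0 * x τ i = (R i).eval₂ χ τ :=
    ⟨fun τ i => (R i).eval₂ χ τ / χ s0, fun τ i => mul_div_cancel₀ _ hχs⟩
  have hmain : ∀ τ, Ψ.eval₂ χ τ = 0 → ∀ (q : Po L k) (g : Polynomial (Po L k ⧸ I)),
      g.eval₂ φ t = Ideal.Quotient.mk I q → eval (x τ) q = g.eval₂ χ τ := by
    intro τ hτ q g hg
    have h4 := Pool.Agent.H69.HIT.map_hev (Polynomial.eval₂RingHom φ t) (fun b => by
      show (Polynomial.C (algebraMap k (Po L k ⧸ I) b)).eval₂ φ t = _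
      rw [Polynomial.eval₂_C]
      show φ (Ideal.Quotient.mk I (C b)) = Ideal.Quotient.mk I (C b)
      rw [hφ, aeval_C]
      rfl) R (Polynomial.C s0) q.totalDegree q
    have h5 := Pool.Agent.H69.HIT.map_hev (Polynomial.eval₂RingHom χ τ) (B' := k) (fun b => by
      show (Polynomial.C (algebraMap k (Po L k ⧸ I) b)).eval₂ χ τ = _
      rw [Polynomial.eval₂_C]
      show χ (Ideal.Quotient.mk I (C b)) = _
      rw [hχ, eval_C]
      rfl) R (Polynomial.C s0) q.totalDegree q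
    simp only [Polynomial.coe_eval₂RingHom, Polynomial.eval₂_C, hR] at h4
    simp only [Polynomial.coe_eval₂RingHom, Polynomial.eval₂_C, ← hx] at h5
    rw [Pool.Agent.H69.HIT.hev_eq _ _ _ _ le_rfl] at h4 h5
    have h6 : aeval (fun i => Ideal.Quotient.mk I (X i : Po L k)) q = Ideal.Quotient.mk I q := by
      have h7 : (aeval (fun i => Ideal.Quotient.mk I (X i : Po L k)) : Po L k →ₐ[k] Po L k ⧸ I) =
          Ideal.Quotient.mkₐ k I := by
        apply MvPolynomial.algHom_ext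
        intro i
        rw [aeval_X]
        rfl
      rw [h7]
      rfl
    rw [h6] at h4
    have h8 := hdiv τ hτ (hev R (Polynomial.C s0) q.totalDegree q -
      Polynomial.C (s0 ^ q.totalDegree) * g) (by
        rw [Polynomial.eval₂_sub, h4, Polynomial.eval₂_mul, Polynomial.eval₂_C, map_pow, hg,
          sub_self])
    rw [Polynomial.eval₂_sub, h5, Polynomial.eval₂_mul, Polynomial.eval₂_C, map_pow,
      ← mul_sub] at h8
    have h9 := (mul_eq_zero.1 h8).resolve_left (pow_ne_zero _ hχs)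
    rw [sub_eq_zero] at h9
    rw [← h9]
    exact (DFunLike.congr_fun (coe_aeval_eq_eval (x τ)) q).symm
  -- the roots
  have hP0 : Ψ.map χ ≠ 0 := fun h => hχe (by
    have h4 := congrArg (fun p => Polynomial.coeff p (n + 1)) h
    simp only [Polynomial.coeff_map, Polynomial.coeff_zero] at h4
    rwa [← hΨd, Polynomial.coeff_natDegree, hΨl] at h4)
  have hPd : (Ψ.map χ).natDegree = n + 1 := by
    rw [Polynomial.natDegree_map_of_leadingCoeff_ne_zero χ (by rw [hΨl]; exact hχe), hΨd]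
  have hcard : Multiset.card (Ψ.map χ).roots = n + 1 := by
    rw [← hPd]
    exact (IsAlgClosed.splits (Ψ.map χ)).natDegree_eq_card_roots.symm
  have hroot : ∀ τ ∈ (Ψ.map χ).roots, Ψ.eval₂ χ τ = 0 := by
    intro τ hτ
    have h4 := (Polynomial.mem_roots hP0).1 hτ
    rwa [Polynomial.IsRoot, Polynomial.eval_map] at h4
  have hnod : (Ψ.map χ).roots.Nodup := by
    rw [Multiset.nodup_iff_count_le_one]
    intro τ
    rw [Polynomial.count_roots]
    by_contra h4
    push Not at h4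
    obtain ⟨h5, h6⟩ := (Polynomial.one_lt_rootMultiplicity_iff_isRoot hP0).1 h4
    have h5' : Ψ.eval₂ χ τ = 0 := by rwa [Polynomial.IsRoot, Polynomial.eval_map] at h5
    have h6' : Ψ.derivative.eval₂ χ τ = 0 := by
      rwa [Polynomial.IsRoot, Polynomial.derivative_map, Polynomial.eval_map] at h6
    have h7 := hdiv τ h5' (V * Ψ.derivative - Polynomial.C ρ) (by
      rw [Polynomial.eval₂_sub, Polynomial.eval₂_mul, hV, Polynomial.eval₂_C, sub_self])
    rw [Polynomial.eval₂_sub, Polynomial.eval₂_mul, h6', mul_zero, Polynomial.eval₂_C, zero_sub,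
      neg_eq_zero] at h7
    exact hχρ h7
  refine ⟨(Ψ.map χ).roots.toFinset.image x, ?_, ?_⟩
  · rw [Finset.card_image_of_injOn, Multiset.toFinset_card_of_nodup hnod, hcard]
    intro τ hτ τ' hτ' h4
    have h5 := hmain τ (hroot τ (Multiset.mem_toFinset.1 hτ)) θ Polynomial.X (by
      rw [Polynomial.eval₂_X, ht])
    have h6 := hmain τ' (hroot τ' (Multiset.mem_toFinset.1 hτ')) θ Polynomial.X (by
      rw [Polynomial.eval₂_X, ht])
    rw [Polynomial.eval₂_X] at h5 h6
    rw [← h5, ← h6]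
    exact congrArg (fun z => eval z θ) h4
  · intro z hz
    obtain ⟨τ, hτ, rfl⟩ := Finset.mem_image.1 hz
    have hτ' := hroot τ (Multiset.mem_toFinset.1 hτ)
    refine ⟨fun q hq => ?_, funext fun i => ?_⟩
    · rw [hmain τ hτ' q 0 (by
        rw [Polynomial.eval₂_zero]
        exact (Ideal.Quotient.eq_zero_iff_mem.2 hq).symm), Polynomial.eval₂_zero]
    · show eval (x τ) (f i) = y i
      rw [hmain τ hτ' (f i) (Polynomial.C (Ideal.Quotient.mk I (X i))) (by
        rw [Polynomial.eval₂_C, hφ, aeval_X]), Polynomial.eval₂_C, hχ, eval_X]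

end Pool.Agent.H33.HX
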